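import Pool.Agent.V11227.DP2

/-!
# ↓-posets are recognised in polynomial time

A finite poset is a ↓-poset iff for all `c ≤ d` there is a ↓-function `f` with `f d = c`.
A ↓-function is the same as a family `f x ≤ x` with `f y = f x ∧ y` (a meet) for all `y ≤ x`.
For fixed `c ≤ d` these are the solutions of a binary constraint satisfaction problem which is
preserved by meets, so it is solved by arc consistency: repeatedly delete a candidate value `a` of
`f x` which has no support at some `y ≤ x` or some `z ≥ x`.  If every `x` keeps a candidate at the
end, then the least candidates form a ↓-function.
-/

namespace Pool.Agent.Results.MP_dd7d0c_lc.DownPosetsInP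

open Pool.Agent.NPC Pool.Agent.V11227.DP

/-- There is a polynomial-time algorithm which decides whether a given matrix is the matrix of the
order relation of a finite ↓-poset. -/
theorem result : InPP DownPoset := inPP_downPoset

end Pool.Agent.Results.MP_dd7d0c_lc.DownPosetsInP
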